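import Mathlib

/-!
# Finite-dimensionality from one-variable bounds

Let `L` be finite over a rational function field `k(a_i : i ∈ σ)`. A subset of `L` which for every
`i` is contained in a finite-dimensional vector space over `k(a_j : j ≠ i)` is contained in a
finite-dimensional vector space over `k`.
-/

namespace Pool.Agent.Helper70.GG

open MvPolynomial

private theorem exists_degreeOf_ne {σ k : Type*} [Field k] {p : MvPolynomial σ k} (hp : Prime p) :
    ∃ i, degreeOf i p ≠ 0 := by
  by_contra hcon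
  push Not at hcon
  have hv : p.vars = ∅ := by
    rw [Finset.eq_empty_iff_forall_notMem]
    intro i hi
    exact (mem_vars_iff_degreeOf_ne_zero.mp hi) (hcon i)
  have hs : p ∈ supported k (∅ : Set σ) := by
    rw [mem_supported, hv]
    simp
  rw [supported_empty, Algebra.mem_bot] at hs
  obtain ⟨c, rfl⟩ := hs
  refine hp.not_isUnit ?_
  have hc : c ≠ 0 := by
    rintro rfl
    exact hp.ne_zero (map_zero _)
  exact (IsUnit.mk0 c hc).map (algebraMap k (MvPolynomial σ k))

private theorem dvd_prod {σ k : Type*} [Fintype σ] [Field k] (h : σ → MvPolynomial σ k)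
    (q : MvPolynomial σ k) (hq : q ≠ 0)
    (hyp : ∀ i, ∃ b : MvPolynomial σ k, b ≠ 0 ∧ degreeOf i b = 0 ∧ q ∣ b * h i) :
    q ∣ ∏ i, h i := by
  induction q using UniqueFactorizationMonoid.induction_on_coprime with
  | h0 => exact absurd rfl hq
  | h1 hx => exact hx.dvd
  | @hpr p n hp =>
    obtain ⟨i, hi⟩ := exists_degreeOf_ne hp
    obtain ⟨b, hb, hb0, hd⟩ := hyp i
    have hpb : ¬ p ∣ b := by
      rintro ⟨c, rfl⟩
      have hc : c ≠ 0 := by
        rintro rfl
        simp at hb
      rw [degreeOf_mul_eq hp.ne_zero hc] at hb0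
      omega
    exact (hp.pow_dvd_of_dvd_mul_left n hpb hd).trans (Finset.dvd_prod_of_mem h (Finset.mem_univ i))
  | @hcp x y hxy hx hy =>
    have hx0 : x ≠ 0 := left_ne_zero_of_mul hq
    have hy0 : y ≠ 0 := right_ne_zero_of_mul hq
    refine hxy.mul_dvd (hx hx0 fun i => ?_) (hy hy0 fun i => ?_)
    · obtain ⟨b, hb, hb0, hd⟩ := hyp i
      exact ⟨b, hb, hb0, (dvd_mul_right x y).trans hd⟩
    · obtain ⟨b, hb, hb0, hd⟩ := hyp i
      exact ⟨b, hb, hb0, (dvd_mul_left y x).trans hd⟩

/-- `Bd a i h m f`: over the polynomials free of the variable `i`, the element `f` is a fraction with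
denominator `h` and numerator of degree at most `m` in the variable `i`. -/
private def Bd {σ k L : Type*} [Field k] [Field L] [Algebra k L] (a : σ → L) (i : σ)
    (h : MvPolynomial σ k) (m : ℕ) (f : L) : Prop :=
  ∃ b n : MvPolynomial σ k, b ≠ 0 ∧ degreeOf i b = 0 ∧ degreeOf i n ≤ m ∧
    f * aeval a b * aeval a h = aeval a n

private theorem Bd.mono {σ k L : Type*} [Field k] [Field L] [Algebra k L] {a : σ → L} {i : σ}
    {h : MvPolynomial σ k} {m : ℕ} {f : L} (H : Bd a i h m f) {h' : MvPolynomial σ k} {m' : ℕ}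
    (hm : m + degreeOf i h' ≤ m') : Bd a i (h * h') m' f := by
  obtain ⟨b, n, hb, hb0, hn, e⟩ := H
  refine ⟨b, n * h', hb, hb0, ?_, ?_⟩
  · exact (degreeOf_mul_le i n h').trans (by omega)
  · rw [map_mul, map_mul, ← e]
    ring

private theorem Bd.add {σ k L : Type*} [Field k] [Field L] [Algebra k L] {a : σ → L} {i : σ}
    {h : MvPolynomial σ k} {m : ℕ} {f g : L} (H : Bd a i h m f) (H' : Bd a i h m g) :
    Bd a i h m (f + g) := by
  obtain ⟨b, n, hb, hb0, hn, e⟩ := H
  obtain ⟨b', n', hb', hb0', hn', e'⟩ := H'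
  refine ⟨b * b', b' * n + b * n', mul_ne_zero hb hb', ?_, ?_, ?_⟩
  · rw [degreeOf_mul_eq hb hb', hb0, hb0']
  · refine (degreeOf_add_le _ _ _).trans (max_le ?_ ?_)
    · exact (degreeOf_mul_le _ _ _).trans (by omega)
    · exact (degreeOf_mul_le _ _ _).trans (by omega)
  · rw [map_add, map_mul, map_mul, map_mul, ← e, ← e']
    ring

private theorem Bd.zero {σ k L : Type*} [Field k] [Field L] [Algebra k L] {a : σ → L} {i : σ}
    {h : MvPolynomial σ k} {m : ℕ} : Bd a i h m 0 :=
  ⟨1, 0, one_ne_zero, degreeOf_one i, by simp, by simp⟩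

private theorem mem_adjoin_ne {σ k L : Type*} [Field k] [Field L] [Algebra k L] {a : σ → L} {i : σ}
    {e : L} (he : e ∈ IntermediateField.adjoin k (a '' {j | j ≠ i})) :
    ∃ c b : MvPolynomial σ k, degreeOf i c = 0 ∧ degreeOf i b = 0 ∧
      e = aeval a c / aeval a b := by
  rw [IntermediateField.mem_adjoin_iff_div] at he
  obtain ⟨r, hr, s, hs, rfl⟩ := he
  have key : ∀ r ∈ Algebra.adjoin k (a '' {j | j ≠ i}), ∃ c : MvPolynomial σ k,
      degreeOf i c = 0 ∧ r = aeval a c := by
    intro r hr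
    have h1 : Algebra.adjoin k (a '' {j | j ≠ i}) =
        (supported k {j | j ≠ i}).map (aeval a) := by
      rw [supported, AlgHom.map_adjoin, Set.image_image]
      simp
    rw [h1] at hr
    obtain ⟨c, hc, rfl⟩ := hr
    refine ⟨c, ?_, rfl⟩
    have hc' : c ∈ supported k {j | j ≠ i} := hc
    rw [mem_supported] at hc'
    by_contra h0
    exact hc' (Finset.mem_coe.mpr (mem_vars_iff_degreeOf_ne_zero.mpr h0)) rfl
  obtain ⟨c, hc, rfl⟩ := key r hr
  obtain ⟨b, hb, rfl⟩ := key s hs
  exact ⟨c, b, hc, hb, rfl⟩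

private theorem Bd.smul {σ k L : Type*} [Field k] [Field L] [Algebra k L] {a : σ → L} {i : σ}
    {h : MvPolynomial σ k} {m : ℕ} {f : L} (H : Bd a i h m f) {e : L}
    (he : e ∈ IntermediateField.adjoin k (a '' {j | j ≠ i})) : Bd a i h m (e * f) := by
  obtain ⟨b, n, hb, hb0, hn, e1⟩ := H
  obtain ⟨c, b', hc0, hb0', rfl⟩ := mem_adjoin_ne he
  by_cases hb' : aeval a b' = 0
  · rw [hb', div_zero, zero_mul]
    exact Bd.zero
  have hb1 : b' ≠ 0 := by
    rintro rfl
    simp at hb'
  refine ⟨b' * b, c * n, mul_ne_zero hb1 hb, ?_, ?_, ?_⟩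
  · rw [degreeOf_mul_eq hb1 hb, hb0, hb0']
  · exact (degreeOf_mul_le _ _ _).trans (by omega)
  · rw [map_mul, map_mul, ← e1]
    field_simp

private theorem Bd.bound {σ k L : Type*} [Fintype σ] [Field k] [Field L] [Algebra k L] {a : σ → L}
    (ha : AlgebraicIndependent k a) {h : σ → MvPolynomial σ k} (hh : ∀ i, h i ≠ 0) {m : σ → ℕ}
    {f : L} (hf : f ∈ IntermediateField.adjoin k (Set.range a)) (H : ∀ i, Bd a i (h i) (m i) f) :
    ∃ g : MvPolynomial σ k, (∀ i, degreeOf i g ≤ m i + degreeOf i (∏ j, h j)) ∧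
      f * aeval a (∏ j, h j) = aeval a g := by
  have hinj : Function.Injective (aeval a : MvPolynomial σ k →ₐ[k] L) := ha
  rw [IntermediateField.mem_adjoin_range_iff] at hf
  obtain ⟨r, s, rfl⟩ := hf
  by_cases hs : aeval a s = 0
  · exact ⟨0, by simp, by simp [hs]⟩
  have hs0 : s ≠ 0 := by
    rintro rfl
    simp at hs
  obtain ⟨p, q, c, hpq, rfl, rfl⟩ := UniqueFactorizationMonoid.exists_reduced_factors' r s hs0
  have hc0 : c ≠ 0 := left_ne_zero_of_mul hs0
  have hq0 : q ≠ 0 := right_ne_zero_of_mul hs0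
  have hne : ∀ {x : MvPolynomial σ k}, x ≠ 0 → aeval a x ≠ 0 := by
    intro x hx h0
    exact hx (hinj (by rw [h0, map_zero]))
  have hf : aeval a (c * p) / aeval a (c * q) = aeval a p / aeval a q := by
    rw [map_mul, map_mul, mul_div_mul_left _ _ (hne hc0)]
  rw [hf] at H ⊢
  have H' : ∀ i, ∃ b n : MvPolynomial σ k, b ≠ 0 ∧ degreeOf i b = 0 ∧ degreeOf i n ≤ m i ∧
      p * b * h i = n * q := by
    intro i
    obtain ⟨b, n, hb, hb0, hn, e⟩ := H i
    refine ⟨b, n, hb, hb0, hn, hinj ?_⟩
    rw [map_mul, map_mul, map_mul, ← e]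
    have := hne hq0
    field_simp
  have hdvd : q ∣ ∏ i, h i := by
    apply dvd_prod h q hq0
    intro i
    obtain ⟨b, n, hb, hb0, hn, e⟩ := H' i
    refine ⟨b, hb, hb0, ?_⟩
    have h1 : q ∣ p * (b * h i) := ⟨n, by rw [← mul_assoc, e, mul_comm]⟩
    exact hpq.symm.dvd_of_dvd_mul_left h1
  have hH0 : ∏ i, h i ≠ 0 := Finset.prod_ne_zero_iff.mpr fun i _ => hh i
  obtain ⟨q', hq'⟩ := hdvd
  refine ⟨p * q', fun i => ?_, ?_⟩
  · by_cases hp0 : p = 0
    · simp [hp0]
    obtain ⟨b, n, hb, hb0, hn, e⟩ := H' i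
    have hq'0 : q' ≠ 0 := by
      rintro rfl
      exact hH0 (by rw [hq', mul_zero])
    have e2 : p * q' * b * h i = n * ∏ j, h j := by
      rw [hq']
      linear_combination q' * e
    have hn0 : n ≠ 0 := by
      rintro rfl
      rw [zero_mul] at e2
      exact (mul_ne_zero (mul_ne_zero (mul_ne_zero hp0 hq'0) hb) (hh i)) e2
    have e3 := congrArg (degreeOf i) e2
    rw [degreeOf_mul_eq (mul_ne_zero (mul_ne_zero hp0 hq'0) hb) (hh i),
      degreeOf_mul_eq (mul_ne_zero hp0 hq'0) hb, degreeOf_mul_eq hn0 hH0, hb0] at e3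
    omega
  · rw [hq', map_mul, map_mul]
    have := hne hq0
    field_simp

/-- The polynomials with bounded degree in every variable are spanned by finitely many
monomials. -/
private theorem mem_span_monomials {σ k : Type*} [Fintype σ] [Field k] (m : ℕ)
    (g : MvPolynomial σ k) (hg : ∀ i, degreeOf i g ≤ m) :
    g ∈ Submodule.span k ((fun s : σ →₀ ℕ => (monomial s (1 : k))) ''
      {s | s ≤ Finsupp.equivFunOnFinite.symm fun _ => m}) := by
  classical
  rw [g.as_sum]
  refine Submodule.sum_mem _ fun s hs => ?_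
  have e : (monomial s (coeff s g) : MvPolynomial σ k) = coeff s g • monomial s (1 : k) := by
    rw [smul_monomial, smul_eq_mul, mul_one]
  rw [e]
  refine Submodule.smul_mem _ _ (Submodule.subset_span ⟨s, ?_, rfl⟩)
  intro i
  exact (monomial_le_degreeOf i hs).trans (hg i)

/-- Let `L` be finite over the rational function field `k(a_i : i ∈ σ)`. A subset of `L` which for
every `i` is contained in a finite-dimensional vector space over `k(a_j : j ≠ i)` is contained in a
finite-dimensional vector space over `k`. -/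
theorem finite_dim_of_directions {σ k L : Type*} [Finite σ] [Field k] [Field L] [Algebra k L]
    (a : σ → L) (ha : AlgebraicIndependent k a)
    (hfin : FiniteDimensional (IntermediateField.adjoin k (Set.range a)) L) (S : Set L)
    (hS : ∀ i, ∃ V : Submodule (IntermediateField.adjoin k (a '' {j | j ≠ i})) L,
      V.FG ∧ S ⊆ V) :
    ∃ W : Submodule k L, W.FG ∧ S ⊆ W := by
  classical
  have : Fintype σ := Fintype.ofFinite σ
  let K0 := IntermediateField.adjoin k (Set.range a)
  let B := Module.finBasis K0 L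
  have hinj : Function.Injective (aeval a : MvPolynomial σ k →ₐ[k] L) := ha
  -- coordinates satisfy uniform bounds
  have key : ∀ i, ∀ s, ∃ h : MvPolynomial σ k, h ≠ 0 ∧ ∃ m : ℕ, ∀ y ∈ S,
      Bd a i h m ((B.repr y s : K0) : L) := by
    intro i s
    obtain ⟨V, ⟨T, hT⟩, hSV⟩ := hS i
    have hle : IntermediateField.adjoin k (a '' {j | j ≠ i}) ≤ K0 :=
      IntermediateField.adjoin.mono k _ _ (Set.image_subset_range a _)
    have h1 : ∃ h : MvPolynomial σ k, h ≠ 0 ∧ ∃ m : ℕ, ∀ y ∈ T,
        Bd a i h m ((B.repr y s : K0) : L) := by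
      clear hT
      induction T using Finset.induction_on with
      | empty => exact ⟨1, one_ne_zero, 0, by simp⟩
      | insert y T _ ih =>
        obtain ⟨h, hh, m, H⟩ := ih
        have h2 : ((B.repr y s : K0) : L) ∈ K0 := (B.repr y s).2
        rw [IntermediateField.mem_adjoin_range_iff] at h2
        obtain ⟨r, q, e⟩ := h2
        by_cases hq : aeval a q = 0
        · refine ⟨h, hh, m, fun z hz => ?_⟩
          rcases Finset.mem_insert.mp hz with rfl | hz
          · rw [e, hq, div_zero]
            exact Bd.zero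
          · exact H z hz
        have hq0 : q ≠ 0 := by
          rintro rfl
          simp at hq
        refine ⟨h * q, mul_ne_zero hh hq0,
          (m + degreeOf i q) + (degreeOf i r + degreeOf i h), fun z hz => ?_⟩
        rcases Finset.mem_insert.mp hz with rfl | hz
        · rw [e, mul_comm h q]
          refine Bd.mono (m := degreeOf i r) ⟨1, r, one_ne_zero, degreeOf_one i, le_rfl, ?_⟩
            (by omega)
          rw [map_one, mul_one, div_mul_cancel₀ _ hq]
        · exact (H z hz).mono (by omega)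
    obtain ⟨h, hh, m, H⟩ := h1
    refine ⟨h, hh, m, fun y hy => ?_⟩
    have hyV : y ∈ Submodule.span (IntermediateField.adjoin k (a '' {j | j ≠ i}))
        (T : Set L) := by
      rw [hT]
      exact hSV hy
    clear hy
    induction hyV using Submodule.span_induction with
    | mem y hy => exact H y hy
    | zero =>
      rw [map_zero]
      exact Bd.zero
    | add x y _ _ hx hy =>
      rw [map_add]
      exact hx.add hy
    | smul e y _ hy =>
      have e1 : e • y = (⟨e, hle e.2⟩ : K0) • y := rfl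
      rw [e1, map_smul]
      exact hy.smul e.2
  choose h hh m H using key
  let M : ℕ := ∑ s, ∑ i, (m i s + degreeOf i (∏ j, h j s))
  let W : Submodule k L := Submodule.span k (Set.range fun t : Fin (Module.finrank K0 L) ×
    {e : σ →₀ ℕ // e ≤ Finsupp.equivFunOnFinite.symm fun _ => M} =>
      (aeval a (∏ j, h j t.1))⁻¹ * aeval a (monomial (t.2 : σ →₀ ℕ) (1 : k)) * B t.1)
  have hfinite : Finite {e : σ →₀ ℕ // e ≤ Finsupp.equivFunOnFinite.symm fun _ => M} :=
    (Set.finite_Iic _).to_subtype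
  refine ⟨W, Submodule.fg_span (Set.finite_range _), fun y hy => ?_⟩
  have e1 : y = ∑ s, ((B.repr y s : K0) : L) * B s := (B.sum_repr y).symm
  rw [e1]
  refine Submodule.sum_mem _ fun s _ => ?_
  obtain ⟨g, hg, e⟩ := Bd.bound ha (fun i => hh i s) (B.repr y s).2 (fun i => H i s y hy)
  have hH : aeval a (∏ j, h j s) ≠ 0 := by
    intro h0
    exact (Finset.prod_ne_zero_iff.mpr fun i _ => hh i s) (hinj (by rw [h0, map_zero]))
  have e2 : ((B.repr y s : K0) : L) = (aeval a (∏ j, h j s))⁻¹ * aeval a g := by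
    rw [← e]
    field_simp
  rw [e2]
  have hg' : g ∈ Submodule.span k ((fun s : σ →₀ ℕ => (monomial s (1 : k))) ''
      {s | s ≤ Finsupp.equivFunOnFinite.symm fun _ => M}) := by
    apply mem_span_monomials
    intro i
    refine (hg i).trans ?_
    refine le_trans ?_ (Finset.single_le_sum (f := fun s => ∑ i, (m i s +
      degreeOf i (∏ j, h j s))) (fun _ _ => Nat.zero_le _) (Finset.mem_univ s))
    exact Finset.single_le_sum (f := fun i => m i s + degreeOf i (∏ j, h j s))
      (fun _ _ => Nat.zero_le _) (Finset.mem_univ i)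
  clear hg e e2
  induction hg' using Submodule.span_induction with
  | mem x hx =>
    obtain ⟨t, ht, rfl⟩ := hx
    exact Submodule.subset_span ⟨(s, ⟨t, ht⟩), rfl⟩
  | zero => simp
  | add x y _ _ hx hy =>
    rw [map_add, mul_add, add_mul]
    exact W.add_mem hx hy
  | smul c x _ hx =>
    rw [map_smul, mul_smul_comm, smul_mul_assoc]
    exact W.smul_mem c hx

end Pool.Agent.Helper70.GG
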