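import Mathlib

/-!
# Function fields of one variable: the facts used for Theorem G

`E0 ⊆ E` fields of characteristic zero, `s ∈ E` transcendental over `E0`, `E` finite over `E0(s)`.
-/

namespace Pool.Agent.Helper70.GG

open Polynomial

section

variable {E0 E : Type*} [Field E0] [Field E] [Algebra E0 E]

/-- `E0[s]` is integrally closed for `s` transcendental. -/
theorem isIntegrallyClosed_adjoin {s : E} (hs : Transcendental E0 s) :
    IsIntegrallyClosed (Algebra.adjoin E0 {s}) := by
  have hinj : Function.Injective (aeval s : E0[X] →ₐ[E0] E) := transcendental_iff_injective.mp hs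
  exact IsIntegrallyClosed.of_equiv ((AlgEquiv.ofInjective _ hinj).trans
    (Subalgebra.equivOfEq _ _ (Algebra.adjoin_singleton_eq_range_aeval E0 s).symm)).toRingEquiv

open IntermediateField.algebraAdjoinAdjoin in
/-- The trace of an element integral over `E0[s]` is in `E0[s]`. -/
theorem trace_mem {s : E} (hs : Transcendental E0 s) (F : IntermediateField E0 E)
    (hF : F = IntermediateField.adjoin E0 {s}) [FiniteDimensional F E] {y : E}
    (hy : IsIntegral (Algebra.adjoin E0 {s}) y) :
    ((Algebra.trace F E y : F) : E) ∈ Algebra.adjoin E0 {s} := by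
  subst hF
  have := isIntegrallyClosed_adjoin hs
  have h1 : IsIntegral (Algebra.adjoin E0 {s})
      (Algebra.trace (IntermediateField.adjoin E0 {s}) E y) := Algebra.isIntegral_trace hy
  obtain ⟨a, ha⟩ := IsIntegrallyClosed.isIntegral_iff.mp h1
  rw [← ha]
  exact a.2

open IntermediateField.algebraAdjoinAdjoin in
/-- Every element of `E` has a non-zero multiple by an element of `E0[s]` which is integral over
`E0[s]`. -/
theorem exists_mul_isIntegral {s : E} (F : IntermediateField E0 E)
    (hF : F = IntermediateField.adjoin E0 {s}) [FiniteDimensional F E] (y : E) :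
    ∃ a ∈ Algebra.adjoin E0 {s}, a ≠ 0 ∧ IsIntegral (Algebra.adjoin E0 {s}) (a * y) := by
  subst hF
  have h1 : IsAlgebraic (Algebra.adjoin E0 {s}) y := by
    have h2 : IsAlgebraic (IntermediateField.adjoin E0 {s}) y := Algebra.IsAlgebraic.isAlgebraic y
    exact (IsFractionRing.isAlgebraic_iff (Algebra.adjoin E0 {s})
      (IntermediateField.adjoin E0 {s}) E).mpr h2
  obtain ⟨a, ha, hi⟩ := h1.exists_integral_multiple
  refine ⟨a, a.2, ?_, hi⟩
  intro h
  exact ha (Subtype.ext h)

theorem transcendental_inv {s : E} (hs : Transcendental E0 s) : Transcendental E0 s⁻¹ := by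
  intro h
  apply hs
  have := h.inv
  rwa [inv_inv] at this

theorem adjoin_inv (s : E) :
    IntermediateField.adjoin E0 {s} = IntermediateField.adjoin E0 {s⁻¹} := by
  apply le_antisymm
  · rw [IntermediateField.adjoin_simple_le_iff]
    have := (IntermediateField.adjoin E0 {s⁻¹}).inv_mem
      (IntermediateField.mem_adjoin_simple_self E0 s⁻¹)
    rwa [inv_inv] at this
  · rw [IntermediateField.adjoin_simple_le_iff]
    exact (IntermediateField.adjoin E0 {s}).inv_mem (IntermediateField.mem_adjoin_simple_self E0 s)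

/-- Rational functions with poles bounded in both charts. -/
private theorem mem_fg_aux {s : E} (hs : Transcendental E0 s) {a b : E}
    (ha : a ∈ Algebra.adjoin E0 {s}) (hb : b ∈ Algebra.adjoin E0 {s⁻¹}) (ha0 : a ≠ 0)
    (hb0 : b ≠ 0) : ∃ V : Submodule E0 E, V.FG ∧ ∀ f : E, a * f ∈ Algebra.adjoin E0 {s} →
      b * f ∈ Algebra.adjoin E0 {s⁻¹} → f ∈ V := by
  rw [Algebra.adjoin_singleton_eq_range_aeval] at ha hb
  obtain ⟨p, hp⟩ := ha
  obtain ⟨q, hq⟩ := hb
  change aeval s p = a at hp
  change aeval s⁻¹ q = b at hq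
  subst hp hq
  have hinj : Function.Injective (aeval s : E0[X] →ₐ[E0] E) := transcendental_iff_injective.mp hs
  have hs0 : s ≠ 0 := by
    rintro rfl
    exact hs isAlgebraic_zero
  refine ⟨Submodule.span E0 (Set.range fun j : Fin (p.natDegree + q.natDegree + 1) =>
    s ^ (j : ℕ) * (aeval s p)⁻¹), Submodule.fg_span (Set.finite_range _), fun f h1 h2 => ?_⟩
  rw [Algebra.adjoin_singleton_eq_range_aeval] at h1 h2
  obtain ⟨u, hu⟩ := h1
  obtain ⟨v, hv⟩ := h2
  have hp0 : p ≠ 0 := by
    rintro rfl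
    simp at ha0
  have hq0 : q ≠ 0 := by
    rintro rfl
    simp at hb0
  have hu' : aeval s u = aeval s p * f := hu
  have hv' : aeval s⁻¹ v = aeval s⁻¹ q * f := hv
  have hrev : ∀ w : E0[X], aeval s⁻¹ w * s ^ w.natDegree = aeval s w.reverse := by
    intro w
    let _ : Invertible s⁻¹ := invertibleOfNonzero (inv_ne_zero hs0)
    have h := eval₂_reverse_mul_pow (algebraMap E0 E) s⁻¹ w
    rw [invOf_eq_inv, inv_inv] at h
    rw [aeval_def, aeval_def, ← h, mul_assoc, ← mul_pow, inv_mul_cancel₀ hs0, one_pow, mul_one]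
  by_cases hf : f = 0
  · rw [hf]
    exact Submodule.zero_mem _
  have hu0 : u ≠ 0 := by
    rintro rfl
    rw [map_zero] at hu'
    exact (mul_ne_zero ha0 hf) hu'.symm
  have hv0 : v ≠ 0 := by
    rintro rfl
    rw [map_zero] at hv'
    exact (mul_ne_zero hb0 hf) hv'.symm
  have e : u * q.reverse * X ^ v.natDegree = p * v.reverse * X ^ q.natDegree := by
    apply hinj
    simp only [map_mul, map_pow, aeval_X]
    rw [← hrev, ← hrev, hu', hv']
    ring
  have hqr : q.reverse ≠ 0 := by
    rwa [Ne, reverse_eq_zero]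
  have hvr : v.reverse ≠ 0 := by
    rwa [Ne, reverse_eq_zero]
  have e2 := congrArg natDegree e
  rw [natDegree_mul (mul_ne_zero hu0 hqr) (pow_ne_zero _ X_ne_zero), natDegree_mul hu0 hqr,
    natDegree_mul (mul_ne_zero hp0 hvr) (pow_ne_zero _ X_ne_zero), natDegree_mul hp0 hvr,
    natDegree_X_pow, natDegree_X_pow] at e2
  have h3 := v.reverse_natDegree_le
  have hdeg : u.natDegree ≤ p.natDegree + q.natDegree := by omega
  have hf2 : f = aeval s u * (aeval s p)⁻¹ := by
    rw [hu', mul_comm (aeval s p) f, mul_assoc, mul_inv_cancel₀ ha0, mul_one]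
  rw [hf2, aeval_eq_sum_range (p := u), Finset.sum_mul]
  refine Submodule.sum_mem _ fun j hj => ?_
  rw [smul_mul_assoc]
  refine Submodule.smul_mem _ _ (Submodule.subset_span ⟨⟨j, ?_⟩, rfl⟩)
  have := Finset.mem_range.mp hj
  omega

/-- **Bounded poles.** The elements of `E` whose poles are bounded on both charts `E0[s]`,
`E0[1/s]` lie in a finitely generated `E0`-submodule. -/
theorem exists_fg_of_isIntegral [CharZero E0] {s : E} (hs : Transcendental E0 s)
    (hfin : FiniteDimensional (IntermediateField.adjoin E0 {s}) E) {Δ Δ' : E} (hΔ : Δ ≠ 0)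
    (hΔ' : Δ' ≠ 0) : ∃ V : Submodule E0 E, V.FG ∧ ∀ y : E,
      IsIntegral (Algebra.adjoin E0 {s}) (Δ * y) →
      IsIntegral (Algebra.adjoin E0 {s⁻¹}) (Δ' * y) → y ∈ V := by
  classical
  have hs' := transcendental_inv hs
  let F := IntermediateField.adjoin E0 {s}
  have hF' : F = IntermediateField.adjoin E0 {s⁻¹} := adjoin_inv s
  have hfinF : FiniteDimensional F E := hfin
  let B := Module.finBasis F E
  obtain ⟨a, ha, ha0, hai⟩ := exists_mul_isIntegral F rfl Δ⁻¹
  obtain ⟨a', ha', ha'0, ha'i⟩ := exists_mul_isIntegral F hF' Δ'⁻¹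
  have hc : ∀ j, ∃ c ∈ Algebra.adjoin E0 {s}, c ≠ 0 ∧
      IsIntegral (Algebra.adjoin E0 {s}) (c * B j) := fun j => exists_mul_isIntegral F rfl (B j)
  have hc' : ∀ j, ∃ c ∈ Algebra.adjoin E0 {s⁻¹}, c ≠ 0 ∧
      IsIntegral (Algebra.adjoin E0 {s⁻¹}) (c * B j) :=
    fun j => exists_mul_isIntegral F hF' (B j)
  choose c hcm hc0 hci using hc
  choose c' hc'm hc'0 hc'i using hc'
  have hV : ∀ j, ∃ V : Submodule E0 E, V.FG ∧ ∀ f : E, a * c j * f ∈ Algebra.adjoin E0 {s} →
      a' * c' j * f ∈ Algebra.adjoin E0 {s⁻¹} → f ∈ V := fun j =>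
    mem_fg_aux hs (mul_mem ha (hcm j)) (mul_mem ha' (hc'm j)) (mul_ne_zero ha0 (hc0 j))
      (mul_ne_zero ha'0 (hc'0 j))
  choose V hVfg hV using hV
  refine ⟨⨆ j, (V j).map (LinearMap.mulRight E0 (B.traceDual j : E)),
    Submodule.fg_iSup _ fun j => (hVfg j).map _, fun y hy hy' => ?_⟩
  have e1 : y = ∑ j, (Algebra.trace F E (y * B j) : E) * B.traceDual j := by
    have h := B.traceDual.sum_repr y
    simp only [Module.Basis.traceDual_repr_apply, Algebra.traceForm_apply] at h
    exact h.symm
  rw [e1]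
  refine Submodule.sum_mem _ fun j _ => ?_
  refine Submodule.mem_iSup_of_mem j ⟨((Algebra.trace F E (y * B j) : F) : E), ?_, rfl⟩
  have htr : ∀ z : F, (z : E) * ((Algebra.trace F E (y * B j) : F) : E) =
      ((Algebra.trace F E ((z : E) * (y * B j)) : F) : E) := by
    intro z
    have h : Algebra.trace F E (z • (y * B j)) = z • Algebra.trace F E (y * B j) := map_smul _ _ _
    have h2 : (z : E) * (y * B j) = z • (y * B j) := rfl
    rw [h2, h]
    rfl
  refine hV j _ ?_ ?_
  · have hz : a * c j ∈ F := (IntermediateField.algebra_adjoin_le_adjoin E0 {s})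
      (mul_mem ha (hcm j))
    rw [htr ⟨_, hz⟩]
    refine trace_mem hs F rfl ?_
    have e2 : (a * c j) * (y * B j) = (a * Δ⁻¹) * (Δ * y) * (c j * B j) := by
      field_simp
    change IsIntegral _ ((a * c j) * (y * B j))
    rw [e2]
    exact (hai.mul hy).mul (hci j)
  · have hz : a' * c' j ∈ F := by
      rw [hF']
      exact (IntermediateField.algebra_adjoin_le_adjoin E0 {s⁻¹}) (mul_mem ha' (hc'm j))
    rw [htr ⟨_, hz⟩]
    refine trace_mem hs' F hF' ?_
    have e2 : (a' * c' j) * (y * B j) = (a' * Δ'⁻¹) * (Δ' * y) * (c' j * B j) := by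
      field_simp
    change IsIntegral _ ((a' * c' j) * (y * B j))
    rw [e2]
    exact (ha'i.mul hy').mul (hc'i j)

/-- An element integral over both charts is algebraic over the constants. -/
theorem isIntegral_of_charts [CharZero E0] {s : E} (hs : Transcendental E0 s)
    (hfin : FiniteDimensional (IntermediateField.adjoin E0 {s}) E) {x : E}
    (h1 : IsIntegral (Algebra.adjoin E0 {s}) x) (h2 : IsIntegral (Algebra.adjoin E0 {s⁻¹}) x) :
    IsIntegral E0 x := by
  obtain ⟨V, hV, h⟩ := exists_fg_of_isIntegral hs hfin (one_ne_zero (α := E)) one_ne_zero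
  have hle : Subalgebra.toSubmodule (Algebra.adjoin E0 {x}) ≤ V := by
    rw [Algebra.adjoin_eq_span, Submodule.span_le]
    intro y hy
    rw [← Submonoid.powers_eq_closure] at hy
    obtain ⟨n, rfl⟩ := hy
    refine h _ ?_ ?_
    · rw [one_mul]
      exact h1.pow n
    · rw [one_mul]
      exact h2.pow n
  have hVfin : Module.Finite E0 V := Module.Finite.iff_fg.mpr hV
  have hfg : (Subalgebra.toSubmodule (Algebra.adjoin E0 {x})).FG :=
    Submodule.FG.of_le hV hle
  exact IsIntegral.of_mem_of_fg _ hfg x (Algebra.self_mem_adjoin_singleton E0 x)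

/-- **Poles of derivatives.** A derivation which maps `E0` to itself and `s` into `E0[s]` maps the
integral closure of `E0[s]` to itself up to a fixed denominator. -/
theorem exists_derivation_bound [CharZero E0] {s : E} (hs : Transcendental E0 s)
    (hfin : FiniteDimensional (IntermediateField.adjoin E0 {s}) E) (D : Derivation ℤ E E)
    (hD0 : ∀ a : E0, ∃ b : E0, D (algebraMap E0 E a) = algebraMap E0 E b)
    (hDs : D s ∈ Algebra.adjoin E0 {s}) : ∃ Δ ∈ Algebra.adjoin E0 {s}, Δ ≠ 0 ∧ ∀ y : E,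
      IsIntegral (Algebra.adjoin E0 {s}) y → IsIntegral (Algebra.adjoin E0 {s}) (Δ * D y) := by
  classical
  let F := IntermediateField.adjoin E0 {s}
  have hfinF : FiniteDimensional F E := hfin
  let B := Module.finBasis F E
  have hDA : ∀ x ∈ Algebra.adjoin E0 {s}, D x ∈ Algebra.adjoin E0 {s} := by
    intro x hx
    induction hx using Algebra.adjoin_induction with
    | mem x hx =>
      rw [Set.mem_singleton_iff.mp hx]
      exact hDs
    | algebraMap a =>
      obtain ⟨b, hb⟩ := hD0 a
      rw [hb]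
      exact Subalgebra.algebraMap_mem _ b
    | add x y _ _ hx hy =>
      rw [map_add]
      exact add_mem hx hy
    | mul x y hx' hy' hx hy =>
      rw [Derivation.leibniz, smul_eq_mul, smul_eq_mul]
      exact add_mem (mul_mem hx' hy) (mul_mem hy' hx)
  have hc : ∀ j, ∃ c ∈ Algebra.adjoin E0 {s}, c ≠ 0 ∧
      IsIntegral (Algebra.adjoin E0 {s}) (c * B j) := fun j => exists_mul_isIntegral F rfl (B j)
  choose c hcm hc0 hci using hc
  -- the dual elements
  let t : Fin (Module.finrank F E) → E := fun j => (c j)⁻¹ * B.traceDual j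
  have hd : ∀ j, ∃ d ∈ Algebra.adjoin E0 {s}, d ≠ 0 ∧
      IsIntegral (Algebra.adjoin E0 {s}) (d * t j) := fun j => exists_mul_isIntegral F rfl (t j)
  have hd' : ∀ j, ∃ d ∈ Algebra.adjoin E0 {s}, d ≠ 0 ∧
      IsIntegral (Algebra.adjoin E0 {s}) (d * D (t j)) :=
    fun j => exists_mul_isIntegral F rfl (D (t j))
  choose d hdm hd0 hdi using hd
  choose d' hd'm hd'0 hd'i using hd'
  have hA : ∀ {x : E}, x ∈ Algebra.adjoin E0 {s} → IsIntegral (Algebra.adjoin E0 {s}) x :=
    fun {x} hx => isIntegral_algebraMap (R := Algebra.adjoin E0 {s}) (x := ⟨x, hx⟩)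
  refine ⟨∏ j, (d j * d' j), prod_mem fun j _ => mul_mem (hdm j) (hd'm j),
    Finset.prod_ne_zero_iff.mpr fun j _ => mul_ne_zero (hd0 j) (hd'0 j), fun y hy => ?_⟩
  have e1 : y = ∑ j, (Algebra.trace F E (c j * (y * B j)) : E) * t j := by
    have h := B.traceDual.sum_repr y
    simp only [Module.Basis.traceDual_repr_apply, Algebra.traceForm_apply] at h
    refine h.symm.trans (Finset.sum_congr rfl fun j _ => ?_)
    have hz : c j ∈ F := (IntermediateField.algebra_adjoin_le_adjoin E0 {s}) (hcm j)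
    have h3 : Algebra.trace F E ((⟨c j, hz⟩ : F) • (y * B j)) =
      (⟨c j, hz⟩ : F) • Algebra.trace F E (y * B j) := map_smul _ _ _
    have h2 : c j * (y * B j) = (⟨c j, hz⟩ : F) • (y * B j) := rfl
    rw [h2, h3]
    change ((Algebra.trace F E (y * B j) : F) : E) * B.traceDual j =
      (c j * ((Algebra.trace F E (y * B j) : F) : E)) * ((c j)⁻¹ * B.traceDual j)
    have := hc0 j
    field_simp
  have htr : ∀ j, ((Algebra.trace F E (c j * (y * B j)) : F) : E) ∈ Algebra.adjoin E0 {s} := by
    intro j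
    refine trace_mem hs F rfl ?_
    have e2 : c j * (y * B j) = y * (c j * B j) := by ring
    rw [e2]
    exact hy.mul (hci j)
  have e3 : (∏ j, (d j * d' j)) * D y = ∑ j, ((∏ i ∈ Finset.univ.erase j, (d i * d' i)) * d' j *
      D ((Algebra.trace F E (c j * (y * B j)) : F) : E) * (d j * t j) +
      (∏ i ∈ Finset.univ.erase j, (d i * d' i)) * d j *
        ((Algebra.trace F E (c j * (y * B j)) : F) : E) * (d' j * D (t j))) := by
    conv_lhs => rw [e1]
    rw [map_sum, Finset.mul_sum]
    refine Finset.sum_congr rfl fun j _ => ?_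
    rw [Derivation.leibniz, smul_eq_mul, smul_eq_mul,
      ← Finset.prod_erase_mul Finset.univ (fun j => d j * d' j) (Finset.mem_univ j)]
    ring
  rw [e3]
  have hprod : ∀ j, ∏ i ∈ Finset.univ.erase j, (d i * d' i) ∈ Algebra.adjoin E0 {s} :=
    fun j => prod_mem fun i _ => mul_mem (hdm i) (hd'm i)
  refine IsIntegral.sum _ fun j _ => ?_
  refine ((hA (mul_mem (mul_mem (hprod j) (hd'm j)) (hDA _ (htr j)))).mul (hdi j)).add ?_
  exact (hA (mul_mem (mul_mem (hprod j) (hdm j)) (htr j))).mul (hd'i j)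

end

end Pool.Agent.Helper70.GG
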