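import Mathlib

/-!
# Seidenberg's theorem

The integral closure of a Noetherian domain containing the rational numbers is stable under the
derivations of the ring.
-/

namespace Pool.Agent.Helper70.GG

open scoped nonZeroDivisors

/-- Iterated differences of the iterates of a derivation. -/
private def U {E : Type*} [CommRing E] (D : E → E) (y : E) : ℕ → ℕ → E → E
  | 0, m, c => D^[m] c
  | n + 1, m, c => U D y n m (c * y) - y * U D y n m c

private theorem U_zero_right {E : Type*} [CommRing E] (D : E → E) (y : E) (n : ℕ) (c : E) :
    U D y (n + 1) 0 c = 0 := by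
  induction n generalizing c with
  | zero => simp [U, mul_comm]
  | succ n ih =>
    rw [U, ih, ih]
    simp

private theorem U_succ_right {E : Type*} [CommRing E] (D : Derivation ℤ E E) (y : E) (n m : ℕ)
    (c : E) : U D y (n + 1) (m + 1) c = D (U D y (n + 1) m c) + (n + 1) * D y * U D y n m c := by
  induction n generalizing c with
  | zero =>
    simp only [U, Function.iterate_succ_apply', map_sub, Derivation.leibniz, smul_eq_mul]
    push_cast
    ring
  | succ n ih =>
    have h1 : U D y (n + 1 + 1) (m + 1) c =
        U D y (n + 1) (m + 1) (c * y) - y * U D y (n + 1) (m + 1) c := rfl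
    have h2 : U D y (n + 1 + 1) m c = U D y (n + 1) m (c * y) - y * U D y (n + 1) m c := rfl
    have h3 : U D y (n + 1) m c = U D y n m (c * y) - y * U D y n m c := rfl
    rw [h1, ih, ih, h2, map_sub, Derivation.leibniz, smul_eq_mul, smul_eq_mul]
    push_cast
    linear_combination (-(n + 1 : E) * D y) * h3

private theorem U_of_lt {E : Type*} [CommRing E] (D : Derivation ℤ E E) (y : E) (m n : ℕ)
    (h : m < n) (c : E) : U D y n m c = 0 := by
  induction m generalizing n c with
  | zero =>
    obtain ⟨n, rfl⟩ := Nat.exists_eq_succ_of_ne_zero h.ne'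
    exact U_zero_right D y n c
  | succ m ih =>
    obtain ⟨n, rfl⟩ := Nat.exists_eq_succ_of_ne_zero (Nat.ne_of_gt (Nat.zero_lt_of_lt h))
    rw [Nat.succ_eq_add_one, U_succ_right, ih (n + 1) (by omega), ih n (by omega)]
    simp

private theorem U_diag {E : Type*} [CommRing E] (D : Derivation ℤ E E) (y : E) (n : ℕ) (c : E) :
    U D y n n c = n.factorial * D y ^ n * c := by
  induction n generalizing c with
  | zero => simp [U]
  | succ n ih =>
    rw [U_succ_right, U_of_lt D y n (n + 1) (by omega), ih, Nat.factorial_succ, pow_succ]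
    push_cast
    simp only [map_zero, zero_add]
    ring

private theorem U_mem {E : Type*} [CommRing E] (D : E → E) (y : E) (S : Subring E)
    (hD : ∀ x ∈ S, D x ∈ S) (b : E) (hb : ∀ i : ℕ, b * y ^ i ∈ S) (n m : ℕ) (c : E)
    (hc : ∀ i : ℕ, c * y ^ i ∈ S) (i : ℕ) : b * y ^ i * U D y n m c ∈ S := by
  induction n generalizing c i with
  | zero =>
    refine S.mul_mem (hb i) ?_
    rw [U]
    have h : ∀ m : ℕ, D^[m] c ∈ S := by
      intro m
      induction m with
      | zero => simpa using hc 0
      | succ m ih =>
        rw [Function.iterate_succ_apply']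
        exact hD _ ih
    exact h m
  | succ n ih =>
    have h1 := ih (c * y) (fun i => by
      have := hc (i + 1)
      rwa [pow_succ', ← mul_assoc] at this) i
    have h2 := ih c hc (i + 1)
    have e : b * y ^ i * U D y (n + 1) m c =
        b * y ^ i * U D y n m (c * y) - b * y ^ (i + 1) * U D y n m c := by
      rw [U, pow_succ]
      ring
    rw [e]
    exact S.sub_mem h1 h2

/-- **Seidenberg's theorem.** A derivation of the fraction field of a Noetherian domain containing
the rational numbers which maps the domain to itself maps its integral closure to itself. -/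
theorem seidenberg {A E : Type*} [CommRing A] [IsNoetherianRing A] [Algebra ℚ A]
    [Field E] [Algebra A E] [IsFractionRing A E] (D : Derivation ℤ E E)
    (hD : ∀ a : A, ∃ b : A, D (algebraMap A E a) = algebraMap A E b) {y : E}
    (hy : IsIntegral A y) : IsIntegral A (D y) := by
  have : IsDomain A := (IsFractionRing.injective A E).isDomain (algebraMap A E)
  obtain ⟨r, hr, h⟩ := hy.isAlmostIntegral
  have hr' : ∀ i : ℕ, algebraMap A E r * y ^ i ∈ (algebraMap A E).range := by
    intro i
    have := h i
    rwa [Algebra.smul_def] at this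
  have hS : ∀ x ∈ (algebraMap A E).range, D x ∈ (algebraMap A E).range := by
    rintro _ ⟨a, rfl⟩
    obtain ⟨b, hb⟩ := hD a
    exact ⟨b, hb.symm⟩
  refine IsAlmostIntegral.isIntegral ⟨r * r, mul_mem hr hr, fun n => ?_⟩
  have h1 := U_mem D y (algebraMap A E).range hS _ hr' n n _ hr' 0
  rw [U_diag, pow_zero, mul_one] at h1
  obtain ⟨a, ha⟩ := h1
  refine ⟨algebraMap ℚ A (n.factorial : ℚ)⁻¹ * a, ?_⟩
  have h2 : algebraMap A E (algebraMap ℚ A (n.factorial : ℚ)⁻¹) * (n.factorial : E) = 1 := by
    have : (algebraMap ℚ A (n.factorial : ℚ)⁻¹) * (n.factorial : A) = 1 := by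
      rw [← map_natCast (algebraMap ℚ A) n.factorial, ← map_mul, inv_mul_cancel₀, map_one]
      exact_mod_cast n.factorial_ne_zero
    rw [← map_natCast (algebraMap A E) n.factorial, ← map_mul, this, map_one]
  rw [map_mul, ha, Algebra.smul_def, map_mul]
  linear_combination (algebraMap A E r * algebraMap A E r * D y ^ n) * h2

end Pool.Agent.Helper70.GG
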